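import Mathlib

/-!
# The bound `dp(G) ≤ n - D + 1` for the detour position number fails

A connected graph with `15` vertices which has a Hamilton path (so that `D = 14` and
`n - D + 1 = 2`) and a detour position set with three vertices.  The graph consists of a vertex `0`
and of two copies of a graph with seven vertices and ports `p`, `q`: `0` is joined to both ports `p`,
and the two ports `q` are joined to each other.
-/

namespace Pool.Agent.Results.MP_da5e02_co.BoundFails

open SimpleGraph

/-- `p` is a detour: a longest path between its end vertices. -/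
def IsDetour {V : Type} {G : SimpleGraph V} {u v : V} (p : G.Walk u v) : Prop :=
  p.IsPath ∧ ∀ q : G.Walk u v, q.IsPath → q.length ≤ p.length

/-- `S` is a detour position set. -/
def IsDetourPositionSet {V : Type} (G : SimpleGraph V) (S : Finset V) : Prop :=
  ∀ u ∈ S, ∀ v ∈ S, u ≠ v → ∀ p : G.Walk u v, IsDetour p →
    ∀ w ∈ S, w ∈ p.support → w = u ∨ w = v

/-- `D` is the detour diameter: the length of a longest path. -/
def IsDetourDiameter {V : Type} (G : SimpleGraph V) (D : ℕ) : Prop :=
  IsGreatest {k | ∃ (u v : V) (p : G.Walk u v), p.IsPath ∧ p.length = k} D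

/-- Neighbours. -/
def nb : Fin 15 → List (Fin 15) :=
  ![[4, 11], [2, 4], [1, 5], [6, 7], [0, 1, 6, 7], [2, 6, 7, 12], [3, 4, 5], [3, 4, 5],
    [9, 11], [8, 12], [13, 14], [0, 8, 13, 14], [5, 9, 13, 14], [10, 11, 12], [10, 11, 12]]

/-- The graph. -/
def G : SimpleGraph (Fin 15) where
  Adj x y := y ∈ nb x
  symm := ⟨by decide +kernel⟩
  loopless := ⟨by decide +kernel⟩

instance : DecidableRel G.Adj := fun x y => inferInstanceAs (Decidable (y ∈ nb x))

/-- Search for a path with at least `L` edges ending at `v` and containing `w`. -/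
def chk (v w : Fin 15) (L : ℕ) : ℕ → Fin 15 → List (Fin 15) → Bool
  | 0, _, _ => false
  | n + 1, x, vis =>
    (if x = v then (if w ∈ x :: vis then decide (vis.length < L) else true) else true) &&
      (nb x).all fun y => if y ∈ x :: vis then true else chk v w L n y (x :: vis)

lemma chk_spec (v w : Fin 15) (L : ℕ) : ∀ (n : ℕ) (x : Fin 15) (vis : List (Fin 15)),
    chk v w L n x vis = true → ∀ p : G.Walk x v, p.IsPath → (∀ y ∈ p.support, y ∉ vis) →
      (w ∈ vis ∨ w ∈ p.support) → vis.length + p.length < L := by
  intro n
  induction n with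
  | zero => intro x vis h; simp [chk] at h
  | succ n ih =>
    intro x vis h p hp hd hw
    rw [chk, Bool.and_eq_true] at h
    obtain ⟨h1, h2⟩ := h
    cases p with
    | nil =>
      simp only [Walk.support_nil, List.mem_singleton] at hw
      rw [if_pos rfl, if_pos (by
        rcases hw with hw | hw
        · exact List.mem_cons_of_mem _ hw
        · rw [hw]; exact List.mem_cons_self)] at h1
      simpa using h1
    | cons hadj p' =>
      rename_i y
      rw [List.all_eq_true] at h2
      have h3 := h2 y hadj
      rw [Walk.cons_isPath_iff] at hp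
      have hyx : y ∉ x :: vis := by
        intro hmem
        rcases List.mem_cons.1 hmem with h | h
        · rw [h] at hadj
          exact G.loopless.irrefl _ hadj
        · exact hd y (by simp) h
      rw [if_neg hyx] at h3
      have h4 := ih y (x :: vis) h3 p' hp.1 (by
        intro z hz hmem
        rcases List.mem_cons.1 hmem with h | h
        · exact hp.2 (h ▸ hz)
        · exact hd z (by simp [hz]) h) (by
        rcases hw with hw | hw
        · exact Or.inl (List.mem_cons_of_mem _ hw)
        · rw [Walk.support_cons, List.mem_cons] at hw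
          rcases hw with hw | hw
          · exact Or.inl (by rw [hw]; exact List.mem_cons_self)
          · exact Or.inr hw)
      simp only [List.length_cons, Walk.length_cons] at h4 ⊢
      omega

lemma walk_of_list : ∀ (l : List (Fin 15)) (x : Fin 15), List.IsChain G.Adj (x :: l) →
    ∃ p : G.Walk x ((x :: l).getLast (List.cons_ne_nil _ _)), p.support = x :: l := by
  intro l
  induction l with
  | nil => intro x _; exact ⟨Walk.nil, rfl⟩
  | cons y l ih =>
    intro x h
    rw [List.isChain_cons_cons] at h
    obtain ⟨p, hp⟩ := ih y h.2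
    have hlast : (y :: l).getLast (List.cons_ne_nil _ _) =
        (x :: y :: l).getLast (List.cons_ne_nil _ _) := by simp
    refine ⟨(Walk.cons h.1 p).copy rfl hlast, ?_⟩
    rw [Walk.support_copy, Walk.support_cons, hp]

/-- A path from a list. -/
lemma path_of_list (x v : Fin 15) (l : List (Fin 15)) (h1 : List.IsChain G.Adj (x :: l))
    (h2 : (x :: l).Nodup) (h3 : (x :: l).getLast (List.cons_ne_nil _ _) = v) :
    ∃ p : G.Walk x v, p.IsPath ∧ p.length = l.length := by
  obtain ⟨p, hp⟩ := walk_of_list l x h1
  subst h3
  refine ⟨p, ?_, ?_⟩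
  · rw [Walk.isPath_def, hp]
    exact h2
  · have := p.length_support
    rw [hp] at this
    simpa using this.symm

/-- A path with `L` edges and no path with `L` edges through `w`. -/
lemma avoid (u v w : Fin 15) (L : ℕ) (l : List (Fin 15)) (h1 : List.IsChain G.Adj (u :: l))
    (h2 : (u :: l).Nodup) (h3 : (u :: l).getLast (List.cons_ne_nil _ _) = v) (h4 : l.length = L)
    (h5 : chk v w L 16 u [] = true) (p : G.Walk u v) (hp : IsDetour p) : w ∉ p.support := by
  intro hw
  obtain ⟨q, hq, hql⟩ := path_of_list u v l h1 h2 h3
  have h6 := hp.2 q hq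
  have h7 := chk_spec v w L 16 u [] h5 p hp.1 (by simp) (Or.inr hw)
  simp only [List.length_nil] at h7
  omega

lemma pos : IsDetourPositionSet G {0, 9, 2} := by
  have a1 := avoid 0 9 2 12 [4, 6, 3, 7, 5, 12, 13, 10, 14, 11, 8, 9] (by decide) (by decide)
    (by decide) rfl (by decide +kernel)
  have a2 := avoid 0 2 9 12 [11, 13, 10, 14, 12, 5, 6, 3, 7, 4, 1, 2] (by decide) (by decide)
    (by decide) rfl (by decide +kernel)
  have a3 := avoid 9 0 2 12 [8, 11, 14, 10, 13, 12, 5, 7, 3, 6, 4, 0] (by decide) (by decide)
    (by decide) rfl (by decide +kernel)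
  have a4 := avoid 2 0 9 12 [1, 4, 7, 3, 6, 5, 12, 14, 10, 13, 11, 0] (by decide) (by decide)
    (by decide) rfl (by decide +kernel)
  have a5 := avoid 9 2 0 13 [8, 11, 13, 10, 14, 12, 5, 6, 3, 7, 4, 1, 2] (by decide) (by decide)
    (by decide) rfl (by decide +kernel)
  have a6 := avoid 2 9 0 13 [1, 4, 7, 3, 6, 5, 12, 14, 10, 13, 11, 8, 9] (by decide) (by decide)
    (by decide) rfl (by decide +kernel)
  intro u hu v hv huv p hp w hw hwp
  simp only [Finset.mem_insert, Finset.mem_singleton] at hu hv hw
  rcases hu with rfl | rfl | rfl <;> rcases hv with rfl | rfl | rfl <;>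
    rcases hw with rfl | rfl | rfl <;>
    first
    | exact Or.inl rfl
    | exact Or.inr rfl
    | exact absurd rfl huv
    | exact absurd hwp (a1 p hp)
    | exact absurd hwp (a2 p hp)
    | exact absurd hwp (a3 p hp)
    | exact absurd hwp (a4 p hp)
    | exact absurd hwp (a5 p hp)
    | exact absurd hwp (a6 p hp)

/-- There is a connected graph with `n = 15` vertices, detour diameter `D` and a detour position
set with more than `n - D + 1` vertices. -/
theorem result : ∃ (G : SimpleGraph (Fin 15)) (D : ℕ) (S : Finset (Fin 15)), G.Connected ∧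
    IsDetourDiameter G D ∧ IsDetourPositionSet G S ∧ 15 - D + 1 < S.card ∧ D = 14 := by
  obtain ⟨p, hp, hpl⟩ := path_of_list 1 8 [2, 5, 6, 3, 7, 4, 0, 11, 13, 10, 14, 12, 9, 8]
    (by decide) (by decide) (by decide)
  refine ⟨G, 14, {0, 9, 2}, ?_, ⟨⟨1, 8, p, hp, hpl⟩, ?_⟩, pos, by decide, rfl⟩
  · have hall : ∀ x, x ∈ p.support := by
      have hn : p.support.Nodup := hp.support_nodup
      have hl : p.support.length = 15 := by
        rw [p.length_support, hpl]
        rfl
      intro x
      have h1 : p.support.toFinset = Finset.univ := by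
        apply Finset.eq_univ_of_card
        rw [List.toFinset_card_of_nodup hn, hl]
        rfl
      have h2 : x ∈ p.support.toFinset := by
        rw [h1]
        exact Finset.mem_univ x
      simpa using h2
    have hr : ∀ x, G.Reachable 1 x := fun x => ⟨p.takeUntil x (hall x)⟩
    exact ⟨fun x y => (hr x).symm.trans (hr y)⟩
  · rintro k ⟨u, v, q, hq, rfl⟩
    have := hq.length_lt
    simp only [Fintype.card_fin] at this
    omega

end Pool.Agent.Results.MP_da5e02_co.BoundFails
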